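import Pool.Agent.Helper82.RZS.Typ
import Pool.Agent.Helper48.ROK.Mx

/-! FLAG ROWS OF K-LABELS in any degree: the deep zoom in optimal flag rows over a literal carrier. -/

set_option autoImplicit false

namespace Pool.Agent.Helper82.RZS

open Finset Filter Topology Matrix Pool.Agent.Helper69.RK Pool.Agent.Helper31.EC Pool.Agent.Helper31.EC.Sp
open Pool.Agent.Helper40.EL Pool.Agent.Helper89.LX Pool.Agent.Helper3.LF Pool.Agent.Helper84.MT
open Pool.Agent.Helper7.GZ Pool.Agent.Helper89.RAT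
open Pool.Agent.Helper89.RAK (Lit KC)
open Pool.Agent.Helper89.RAD (cnA dp DMD cnA_dp stD)
open Pool.Agent.Helper36.AM (STu)
open Pool.Agent.Helper48.ROK (nrm nrm_lit nrm_fc optfK_res ev_res kns_im volC_res exists_stm)
open Pool.Agent.Helper4.FRK
open Pool.Agent.Helper85.FRG (FF exists_ff Car scw_cndR)
open Pool.Agent.Helper87.NSL (KnS cndR)
open Pool.Agent.Helper52.GF (scw)
open Pool.Agent.Helper7.RD (RW volC volCO volC_eq volCO_le)
open Pool.Agent.Helper29.MX (Rsl KLb KAd KOp KZ pfx volP Pt AllE Flg OptLam rover)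

noncomputable section

variable {S : Sp} {M D : ℕ} {E : ℕ → ℕ} {ι : Type}

section
variable [Finite ι] {g : ℕ} {s : MSys S M (lin g) ι} {R : Rsl S}

/-- one system: the volume in all degrees of a prefix is at most the entropy over every K-label of the window -/
theorem ent_one (hR : KnS R s.Q.v) (hst : ∀ m, m < M → STu m) {c : ℝ} (h0 : 0 ≤ c) (h1 : c < 1) {j : ℕ} (hj : j < M)
    {l : Lab S} (hl : DMD s (dp (nrm R s.Q)) (nrm R s.Q) c l) :
    volP s R c hj.le ≤ H (up1 l ((pq hj.le s.Q).dg 1)) := by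
  obtain ⟨D₂, h2, h3⟩ := exists_stm hst g
  have hST := h3 D₂ le_rfl j hj
  obtain ⟨x, hx⟩ := (gaq (pS hj.le s).Q D₂).exists_optfK (KC (nrm R s.Q)) (cnA (pS hj.le s) (dp (nrm R s.Q)) c)
  have h4 := stD (s := pS hj.le s) hST (pS_lit (nrm_lit R s.Q) _) h2 h0 h1
    ((dmd_pS (s := s) (R := nrm R s.Q) hj.le).2 hl) hx
  have hx' : (gaq (pfx s.Q hj.le) D₂).OptfK (KC (nrm R s.Q)) (cnA s (dp (nrm R s.Q)) c) x := by
    rw [← cnA_pS hj.le]
    exact hx
  have h5 : volP s R c hj.le ≤ vol (pfx s.Q hj.le) D₂ x := by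
    rw [← volC_eq hx', volC_res (nrm_fc hR), cnA_dp]
    exact volCO_le D₂
  exact h5.trans h4

/-- THE ENTROPIES from the structure theorem in smaller dimensions and constant volumes of the prefixes -/
theorem ent_of (hR : Pt s R) (hst : ∀ m, m < M → STu m) {c : ℝ} (h0 : 0 ≤ c) (h1 : c < 1)
    (hrig : AllE (fun _ t R' => ∀ (j : ℕ) (hj : j ≤ M), volP t R' c hj = volP s R c hj) S s R) :
    Ent s (nrm R s.Q) c (vP s R c) where
  self := fun {j} hj l hl => by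
    rw [vP_eq s R c hj.le]
    exact ent_one hR hst h0 h1 hj hl
  im := fun T p B hB {j} hj l hl => by
    rw [vP_eq s R c hj.le, ← hrig T p B hB j hj.le]
    exact ent_one (S := Sp.im p B) (s := s.im p B hB) (R := R) (kns_im hR p B) hst h0 h1 hj hl

/-- the rows of an optimal form of degree `D` are a flag -/
theorem rws_flag (hR : KnS R s.Q.v) (hD : 1 ≤ D) {c : ℝ} {v : ℕ → ℝ} (hv : Vcn s (nrm R s.Q) D c v)
    (hH : Ent s (nrm R s.Q) c v) {x : ∀ k, FD (S.F k) (Mon M D)} (hx : KOp s R D c x) {u : ℝ} (hu : GrB s.Q x u) :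
    FlR (rws hD hx.1.1 hu) fun j : Fin M => thv v j.val where
  tri := rws_tri hD hx.1.1 hu
  ex := fun e he => by
    have hx' : KO s (nrm R s.Q) D c x := by
      refine (optfK_res (nrm_fc hR)).2 ?_
      rw [cnA_dp]
      exact hx
    have h2 : ∀ j : Fin M, Typ (S := (lb x).sp) (fun k (ω : (x k).l.T.Ω) => |lz s.Q x j k ω - thv v j.val| ≤ e / 2) :=
      fun j => typ_lz (nrm_lit R s.Q) hD hv hH hx' j (e / 2) (by linarith)
    obtain ⟨C, hC, hd⟩ := rws_der hD hx.1.1 hu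
    have h3 : Tendsto (fun k => Real.logb 2 C / (S.F k).n) UF (𝓝 0) := S.div_n_tendsto _
    refine Typ.mono (S := (lb x).sp) (Typ_all (S := (lb x).sp) _ h2) ?_
    filter_upwards [hd, h3.eventually (gt_mem_nhds (show (0 : ℝ) < e / 2 by linarith))] with k a b
    intro (ω : (x k).l.T.Ω) hω h j
    have hn := (S.F k).pos
    obtain ⟨a1, a2⟩ := a ω hω j
    have h4 := abs_le.mp (h j)
    have h5 : (2 : ℝ) ^ (Real.logb 2 C) = C := Real.rpow_logb (by norm_num) (by norm_num) (by linarith)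
    have h6 : Real.logb 2 C ≤ e / 2 * (S.F k).n := by
      rw [div_lt_iff₀ hn] at b
      exact b.le
    constructor
    · have h7 : (2 : ℝ) ^ ((thv v j.val - e) * (S.F k).n) * C ≤ 2 ^ (lz s.Q x j k ω * (S.F k).n) := by
        nth_rewrite 1 [← h5]
        rw [← Real.rpow_add (by norm_num)]
        apply Real.rpow_le_rpow_of_exponent_le (by norm_num)
        nlinarith [h4.1]
      have h8 : (2 : ℝ) ^ ((thv v j.val - e) * (S.F k).n) * C ≤
          C * |MvPolynomial.eval (s.Q.v k ((x k).l.p.π ω)) (MvPolynomial.pderiv j ((rws hD hx.1.1 hu).p k ω j))| :=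
        h7.trans a2
      rw [mul_comm] at h8
      exact le_of_mul_le_mul_left h8 (by linarith)
    · refine a1.trans (Real.rpow_le_rpow_of_exponent_le (by norm_num) ?_)
      exact mul_le_mul_of_nonneg_right (by linarith [h4.2]) hn.le

/-- **FLAG ROWS OVER LITERAL CARRIERS** (finer than a given literal carrier) -/
theorem exists_flr (hR : KnS R s.Q.v) (hD : 1 ≤ D) {c : ℝ}
    {v : ℕ → ℝ} (hS : Vpf D c v s R) (hX : AllE (fun _ t R' => Vpf D c v t R') S s R) (hH : Ent s (nrm R s.Q) c v)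
    {u Λ : ℝ} (hΛ : 0 ≤ Λ) (hu : ∀ x : ∀ k, FD (S.F k) (Mon M D), KOp s R D c x → GrB s.Q x u)
    (hz : ∀ x : ∀ k, FD (S.F k) (Mon M D), KOp s R D c x → Sz x Λ) {W : Rsl S}
    (hW : Car s R (fun k => fc (R k)) c (Lab.ofZ W)) :
    ∃ (W' : Rsl S) (P : Rows s.Q (Lab.ofZ W') M D Λ u), (∀ k, W' k ≤ W k) ∧ KLb s R c (Lab.ofZ W') ∧
      Car s R (fun k => fc (R k)) c (Lab.ofZ W') ∧ FlR P fun j : Fin M => thv v j.val := by
  obtain ⟨x, hx, ho⟩ := hW D
  obtain ⟨y, rfl⟩ := exists_ff hx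
  set x : ∀ k, FD (S.F k) (Mon M D) := fun k => (y k).fd with hxd
  have hx1 : KOp s R D c x := by
    rw [scw_cndR] at ho
    exact ho
  have hv := vcn_nrm hR hS hX
  have hu1 := hu x hx1
  have hF := rws_flag hR hD hv hH hx1 hu1
  obtain ⟨K, hK, hco⟩ := rws_coef hD hx1.1.1 hu1 hΛ (hz x hx1)
  have hdm : (lab s.Q x).DMf (cndR s R c) := lab_dm (Gau.AdfK.dm _ hx1.1)
  have hkz : (KC R).ev (lab s.Q x) := by
    rw [← ev_res (nrm_fc hR)]
    exact lab_kz (nrm_lit R s.Q) ((ev_res (nrm_fc hR) _).2 hx1.1.2)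
  have hle : ∀ k, W k ⊓ Setoid.ker (bi s.Q x k) ≤ W k := fun k => inf_le_left
  refine ⟨fun k => W k ⊓ Setoid.ker (bi s.Q x k), Rows.cut (rws hD hx1.1.1 hu1) hK hco, hle, ⟨hdm, hkz⟩, ?_, ?_⟩
  · refine car_rs hle hW ?_ hkz
    rw [scw_cndR]
    exact hdm
  · exact hF.cut hK hco

/-- **THE DEEP ZOOM IN OPTIMAL FLAG ROWS** over a literal carrier of the window `c`, finer than a given literal K-label:
`D` is the degree of the rows (no relation to `g`), `Λ` the bound of their coefficients, `e` the unit -/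
theorem exists_rw (hR : Pt s R) (hD : 1 ≤ D) (hst : ∀ m, m < M → STu m) {c e : ℝ} (hc : 0 < c)
    (he : 0 < e) (hce : c + e ≤ 1)
    (hrig : AllE (fun _ t R' => ∀ (j : ℕ) (hj : j ≤ M), volP t R' c hj = volP s R c hj) S s R)
    (hd : ∀ (j : ℕ) (hj : j ≤ M), volC (KZ R) (cndR s R c) (pfx s.Q hj) D ≤ volP s R c hj)
    (hdX : AllE (fun _ t R' => ∀ (j : ℕ) (hj : j ≤ M), volC (KZ R') (cndR t R' c) (pfx t.Q hj) D ≤ volP t R' c hj) S s R)
    {Λ : ℝ} (hΛ : 0 ≤ Λ) (hu : ∀ x : ∀ k, FD (S.F k) (Mon M D), KOp s R D c x → GrB s.Q x e)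
    (hz : ∀ x : ∀ k, FD (S.F k) (Mon M D), KOp s R D c x → Sz x Λ) {κ : ℕ} (h1 : 1 ≤ κ) (hκ : ∀ i, (s.lf i).e ≤ κ)
    (hΛκ : Λ + e ≤ c * (κ + 1)) {W₀ : Rsl S} (hW₀ : KLb s R c (Lab.ofZ W₀)) :
    ∃ (z : RW s M) (W : Rsl S), (∀ k, W k ≤ W₀ k) ∧ z.Z.l = Lab.ofZ W ∧ z.Z.c = c ∧ z.Z.u = e ∧ z.κ = κ ∧ z.D = D ∧
      z.Λ = Λ ∧ KLb s R c z.Z.l ∧ Car s R (fun k => fc (R k)) c z.Z.l ∧ Flg z (lamK s R c) ∧ OptLam z R (lamK s R c) ∧
      Pt z.sys (rover z.Z.l z.Z.u z.Z.hu R) := by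
  obtain ⟨W, hW, hWc⟩ := exists_car_le hR hW₀
  have hS : Vpf D c (vP s R c) s R := vpf_of (fun j hj => (vP_eq s R c hj).symm) hd
  have hX : AllE (fun _ t R' => Vpf D c (vP s R c) t R') S s R := fun T p B hB =>
    vpf_of (s := s.im p B hB) (R := R) (fun j hj => (hrig T p B hB j hj).trans (vP_eq s R c hj).symm) (hdX T p B hB)
  obtain ⟨W', P, hW', hl, hcar, hF⟩ := exists_flr hR hD hS hX (ent_of hR hst hc.le (by linarith) hrig) hΛ hu hz hWc
  have e1 : (fun j : Fin M => thv (vP s R c) j.val) = lamK s R c := funext fun j => thv_vP s R c j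
  rw [e1] at hF
  exact ⟨mkRW hc he hce hl P h1 hκ hΛκ, W', fun k => (hW' k).trans (hW k), rfl, rfl, rfl, rfl, rfl, rfl, hl, hcar,
    ⟨hF.tri, hF.ex⟩, Or.inl fun _ => rfl, mkRW_pt hc he hce hl P h1 hκ hΛκ hR⟩

end

end

end Pool.Agent.Helper82.RZS
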