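import Pool.Agent.Helper82.RZS.Deg
import Pool.Agent.Helper82.RZS.Mk
import Pool.Agent.Helper63.ZMX.St

/-! Row [ROWSZ] of the zooms (Helper63/ZMX/St): optimal flag rows of a degree which does not depend on the system, the
degree of the zoom depends on the number of parameters and on the Lipschitz constant only. -/

set_option autoImplicit false

namespace Pool.Agent.Helper82.RZS

open Finset Filter Topology Matrix Pool.Agent.Helper69.RK Pool.Agent.Helper31.EC Pool.Agent.Helper31.EC.Sp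
open Pool.Agent.Helper40.EL Pool.Agent.Helper89.LX Pool.Agent.Helper3.LF Pool.Agent.Helper84.MT
open Pool.Agent.Helper25.DX
open Pool.Agent.Helper89.RAD (cnA dp cnA_dp)
open Pool.Agent.Helper36.AM (STu)
open Pool.Agent.Helper48.ROK (nrm nrm_lit nrm_fc optfK_res)
open Pool.Agent.Helper4.FRK (Sz lamK klb_top)
open Pool.Agent.Helper85.FRG (Car)
open Pool.Agent.Helper87.NSL (cndR KnS)
open Pool.Agent.Helper7.RD (RW volC volCO)
open Pool.Agent.Helper29.MX
open Pool.Agent.Helper94.SEL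
open Pool.Agent.Helper63.ZMX (ROWSZ)

noncomputable section

variable {S T : Sp} {M D : ℕ} {E : ℕ → ℕ} {ι : Type}

/-- the bound of the numbers of parameters and of `La` -/
def gp (e0 : ℕ) (La : ℝ) : ℕ := max 1 (max e0 ⌈La⌉₊)

theorem gp_one (e0 : ℕ) (La : ℝ) : 1 ≤ gp e0 La := le_max_left _ _

theorem gp_e0 (e0 : ℕ) (La : ℝ) : e0 ≤ gp e0 La := (le_max_left _ _).trans (le_max_right _ _)

theorem gp_La (e0 : ℕ) (La : ℝ) : La ≤ gp e0 La := by
  refine (Nat.le_ceil La).trans ?_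
  exact_mod_cast (le_max_right e0 ⌈La⌉₊).trans (le_max_right 1 _)

open Classical in
/-- THE DEGREE OF THE ROWS -/
def Dst (M e0 : ℕ) (La : ℝ) : ℕ :=
  if h : ∀ m, m < M + 1 → STu m then (deg_pfx h (gp_one e0 La)).choose else 1

/-- THE DEGREE OF THE ZOOM -/
def gb (M : ℕ) (_r e0 : ℕ) (La : ℝ) : ℕ := max (max 1 e0) ⌈(Dst M e0 La : ℝ) * La⌉₊

theorem Dst_spec (hst : ∀ m, m < M + 1 → STu m) (e0 : ℕ) (La : ℝ) : 1 ≤ Dst M e0 La ∧
    ∀ (ι : Type) [Finite ι] (E : ℕ → ℕ) (S : Sp) (s : MSys S (M + 1) E ι) (R : Rsl S), Pt s R →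
      (∀ i, (s.lf i).e ≤ gp e0 La) → ∀ c e θ : ℝ, 0 < c → 0 < e → TopG s R c e → θ < c * (1 + gp e0 La) →
        (∀ (T : Sp) (q : Pj T S) (A : ∀ k, (T.F k).Ω → Prop) (hA : 0 < ul (T.pr A)), tot (s.im q A hA) R c ≤ θ) →
          ∀ (j : ℕ) (hj : j ≤ M + 1), volC (KZ R) (cndR s R c) (pfx s.Q hj) (Dst M e0 La) ≤ volP s R c hj := by
  have e1 : Dst M e0 La = (deg_pfx hst (gp_one e0 La)).choose := dif_pos hst
  rw [e1]
  have h1 := (deg_pfx hst (gp_one e0 La)).choose_spec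
  exact ⟨h1.1, h1.2 _ le_rfl⟩

theorem lmd_lamK (s : MSys S M E ι) (R : Rsl S) (c : ℝ) : lmd s R c = lamK s R c := by
  funext j
  unfold lmd num lamK
  push_cast
  ring

/-- THE SIZE of the optimal forms -/
theorem sz_opt [Finite ι] {s : MSys S M E ι} {R : Rsl S} (hP : Pt s R) {c θ ε : ℝ} (h0 : 0 ≤ θ) (h1 : θ < 1)
    (hε : 0 < ε) {x : ∀ k, FD (S.F k) (Mon M D)} (hx : KOp s R D c x) (hu : Ue s.Q x θ) : Sz x (D * θ + ε) := by
  have hR : KnS R s.Q.v := hP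
  have h2 : (gaq s.Q D).OptfK (Pool.Agent.Helper89.RAK.KC (nrm R s.Q)) (cnA s (dp (nrm R s.Q)) c) x := by
    refine (optfK_res (nrm_fc hR)).2 ?_
    rw [cnA_dp]
    exact hx
  have h3 := size_ue hx.1.1 (fun z => opt_dmz (fun k => (nrm_lit R s.Q).cell 1 k) h2 z) h0 h1 hu (2 * ε) (by linarith)
  refine Typ.mono (S := (lb x).sp) h3 (Eventually.of_forall fun k ω _ h w => ?_)
  refine (h w).trans (le_of_eq ?_)
  congr 2
  ring

/-- **[ROWSZ]**, with a literal K-label `W₀` and the carrier -/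
theorem rowsz_of (hst : ∀ m, m < M + 1 → STu m) {g r e0 : ℕ} {s : MSys S (M + 1) (lin g) (Fin r)} {R : Rsl S}
    (hP : Pt s R) (hdim : ∀ i, (s.lf i).e ≤ e0) {c e La : ℝ} (hc : 0 < c) (he : 0 < e)
    (hrig : ∀ (T : Sp) (q : Pj T S) (A : ∀ k, (T.F k).Ω → Prop) (hA : 0 < ul (T.pr A)) (j : ℕ) (hj : j ≤ M + 1),
      num (s.im q A hA) R hj c = num s R hj c) (hLa : tot s R c + e ≤ La * c) (hT : TopG s R c e) {W₀ : Rsl S}
    (hW₀ : KLb s R c (Lab.ofZ W₀)) :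
    ∃ (z : RW s (M + 1)) (W : Rsl S), (∀ k, W k ≤ W₀ k) ∧ z.Z.l = Lab.ofZ W ∧ z.Z.c = c ∧ z.Z.u = e ∧
      z.κ = gb M r e0 La ∧ z.D = Dst M e0 La ∧ KLb s R c z.Z.l ∧ Car s R (fun k => fc (R k)) c z.Z.l ∧
      Flg z (lmd s R c) ∧ OptLam z R (lmd s R c) ∧ Pt z.sys (rover z.Z.l z.Z.u z.Z.hu R) := by
  obtain ⟨hD, hdeg⟩ := Dst_spec hst e0 La
  obtain ⟨hc1, hce⟩ := topG_le (by omega) hP hc he hT
  have htot : ∀ (T : Sp) (q : Pj T S) (A : ∀ k, (T.F k).Ω → Prop) (hA : 0 < ul (T.pr A)),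
      tot (s.im q A hA) R c ≤ tot s R c := by
    intro T q A hA
    have h1 := hrig T q A hA (M + 1) le_rfl
    rw [Pool.Agent.Helper84.SEL.num_eq, Pool.Agent.Helper84.SEL.num_eq, ← Pool.Agent.Helper84.SEL.tot_eq,
      ← Pool.Agent.Helper84.SEL.tot_eq] at h1
    exact h1.le
  have hrig' : AllE (fun _ t R' => ∀ (j : ℕ) (hj : j ≤ M + 1), volP t R' c hj = volP s R c hj) S s R := by
    intro T q A hA j hj
    have h1 := hrig T q A hA j hj
    unfold num at h1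
    linarith
  have h0t : 0 ≤ tot s R c := by
    unfold tot
    linarith [volKO_le_M s R c]
  have hLa0 : tot s R c < gp e0 La * c := by
    have h1 := mul_le_mul_of_nonneg_right (gp_La e0 La) hc.le
    linarith
  have hd := hdeg (Fin r) (lin g) S s R hP (fun i => (hdim i).trans (gp_e0 e0 La)) c e (tot s R c) hc he hT (by
    linarith) htot
  have hdX := deg_pfx_ev hrig' hd
  set θ : ℝ := min (1 - e) (tot s R c) with hθ
  have hθ0 : 0 ≤ θ := le_min (by linarith) h0t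
  have hθ1 : θ < 1 := (min_le_left _ _).trans_lt (by linarith)
  have hD0 : (1 : ℝ) ≤ Dst M e0 La := by exact_mod_cast hD
  have hu : ∀ x : ∀ k, FD (S.F k) (Mon (M + 1) (Dst M e0 La)), KOp s R (Dst M e0 La) c x → GrB s.Q x e :=
    fun x hx => hT _ x hx
  have hz : ∀ x : ∀ k, FD (S.F k) (Mon (M + 1) (Dst M e0 La)), KOp s R (Dst M e0 La) c x →
      Sz x ((Dst M e0 La : ℝ) * θ + c / 2) := fun x hx =>
    sz_opt hP hθ0 hθ1 (by linarith) hx ((grb_ue hx.1.1 (hu x hx)).min (ue_tot hP hx.1 htot).2.1)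
  have hκ : ((Dst M e0 La : ℝ) * θ + c / 2) + e ≤ c * ((gb M r e0 La : ℕ) + 1) := by
    have h1 : (Dst M e0 La : ℝ) * La ≤ (gb M r e0 La : ℕ) := by
      refine (Nat.le_ceil _).trans ?_
      exact_mod_cast le_max_right (max 1 e0) _
    have h2 : (Dst M e0 La : ℝ) * θ ≤ Dst M e0 La * tot s R c :=
      mul_le_mul_of_nonneg_left (min_le_right _ _) (by linarith)
    have h3 : (Dst M e0 La : ℝ) * (tot s R c + e) ≤ Dst M e0 La * (La * c) :=
      mul_le_mul_of_nonneg_left hLa (by linarith)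
    have h4 : e ≤ Dst M e0 La * e := le_mul_of_one_le_left he.le hD0
    have h5 := mul_le_mul_of_nonneg_right h1 hc.le
    nlinarith
  obtain ⟨z, W, h1, h2, h3, h4, h5, h6, -, h8, h9, h10, h11, h12⟩ := exists_rw hP hD hst hc he hce hrig' hd hdX
    (Λ := (Dst M e0 La : ℝ) * θ + c / 2) (by positivity) hu hz (κ := gb M r e0 La)
    ((le_max_left 1 e0).trans (le_max_left _ _))
    (fun i => (hdim i).trans ((le_max_right 1 e0).trans (le_max_left _ _))) hκ hW₀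
  rw [← lmd_lamK] at h10 h11
  exact ⟨z, W, h1, h2, h3, h4, h5, h6, h8, h9, h10, h11, h12⟩

/-- **[ROWSZ]** -/
theorem rowsz (M : ℕ) : ROWSZ M (gb M) := by
  intro A C v hX m g r e0 La
  refine ⟨Dst M e0 La, fun b0 S s R hs c e hc hcb he hLa hT => ?_⟩
  obtain ⟨z, W, -, h2, h3, h4, h5, h6, h8, -, h10, h11, h12⟩ := rowsz_of hX.st hs.cl.2.1 hs.dim hc he
    (fun T q A hA j hj => hs.rig T q A hA c hc.le hcb j hj) hLa hT (klb_top s R c)
  exact ⟨z, W, h2, h3, h4, h5, h6.le, h8, h10, h11, h12⟩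

end

end Pool.Agent.Helper82.RZS
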