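import Pool.Agent.Helper49.KL.Rig
import Pool.Agent.Helper61.SEL.Exo
import Pool.Agent.Helper70.CPW.Evf

/-! VOLUMES OF LITERAL FORMS ON EVENTS: the volume of a literal form is additive over events of extensions, so an optimal
K-form of degree `D`, whose volume is the volume in all degrees on all events, has this volume on every event. -/

set_option autoImplicit false

namespace Pool.Agent.Helper82.RZS

open Finset Filter Topology Matrix Pool.Agent.Helper69.RK Pool.Agent.Helper31.EC Pool.Agent.Helper31.EC.Sp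
open Pool.Agent.Helper40.EL Pool.Agent.Helper89.LX Pool.Agent.Helper3.LF Pool.Agent.Helper84.MT
open Pool.Agent.Helper14.MC (gx vx vol_eq vx_UB)
open Pool.Agent.Helper49.KL (LF)
open Pool.Agent.Helper87.NSL (cndR KnS)
open Pool.Agent.Helper7.RD (volC volCO volC_eq volC_le_of volCO_le)
open Pool.Agent.Helper29.MX

noncomputable section

variable {S T : Sp} {M D : ℕ} {κ : Type} {E : ℕ → ℕ} {ι : Type}

theorem lf_vx_px (Q : S.VV M) (L : LF S (Mon M D)) (p : Pj T S) (k : ℕ) : vx Q (L.px p) k = vx Q L.fd k :=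
  sum_push (p.fp k) (fun ω => gx Q k ω (L.G k ω))

theorem lf_vx_re (Q : S.VV M) (L : LF S (Mon M D)) (p : Pj T S) (A : ∀ k, (T.F k).Ω → Prop) (k : ℕ) :
    vx (Q.im (lbS (L.px p)).pj A) (reS (L.px p) A) k = vx (Q.im p A) (L.im p A).fd k :=
  sum_push (FSp.imp (p.fp k) (A k)) (fun ω => gx Q k ω (L.G k ω))

/-- the exponent of a literal form is additive over events of extensions -/
theorem lf_vx (Q : S.VV M) (L : LF S (Mon M D)) (p : Pj T S) (A : ∀ k, (T.F k).Ω → Prop) (k : ℕ) :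
    vx Q L.fd k = T.pr A k * vx (Q.im p A) (L.im p A).fd k +
      (1 - T.pr A k) * vx (Q.im p fun k ω => ¬ A k ω) (L.im p fun k ω => ¬ A k ω).fd k := by
  have h1 := reS_vx Q (L.px p) A k
  rw [lf_vx_px, lf_vx_re, lf_vx_re] at h1
  exact h1

/-- the exponents on events are bounded -/
theorem lf_UB {Q : S.VV M} {L : LF S (Mon M D)} {A : κ → Part S} (hL : (gaq Q D).Adf A L.fd) (p : Pj T S)
    (B : ∀ k, (T.F k).Ω → Prop) : UB (vx (Q.im p B) (L.im p B).fd) := by
  obtain ⟨C, hC⟩ := Pool.Agent.Helper70.CPW.gx_bd hL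
  have key : ∀ᶠ k in UF, 0 ≤ vx (Q.im p B) (L.im p B).fd k ∧ vx (Q.im p B) (L.im p B).fd k ≤ C := by
    filter_upwards [hC] with k hk
    exact Pool.Agent.Helper70.CPW.sum_mul_bd (F := (Sp.im p B).F k) (fun ω => gx Q k ω (L.G k ω)) fun ω hω =>
      hk ω (FSp.im_supp (p.fp k) (B k) ω hω)
  exact UB_of_nonneg_le (C := C) (key.mono fun _ h => h.1) (key.mono fun _ h => h.2)

/-- THE VOLUME OF A LITERAL FORM IS ADDITIVE over events of extensions -/
theorem lf_vol {Q : S.VV M} {L : LF S (Mon M D)} {A : κ → Part S} (hL : (gaq Q D).Adf A L.fd) (p : Pj T S)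
    (B : ∀ k, (T.F k).Ω → Prop) :
    vol Q D L.fd = ul (T.pr B) * vol (Q.im p B) D (L.im p B).fd +
      (1 - ul (T.pr B)) * vol (Q.im p fun k ω => ¬ B k ω) D (L.im p fun k ω => ¬ B k ω).fd := by
  have tE : Tendsto (T.pr B) UF (𝓝 (ul (T.pr B))) := ul_tendsto (UB_pr B)
  have u1 := ul_tendsto (lf_UB hL p B)
  have u2 := ul_tendsto (lf_UB hL p fun k ω => ¬ B k ω)
  have t := (tE.mul u1).add ((tE.const_sub 1).mul u2)
  rw [vol_eq, vol_eq, vol_eq]
  have e1 : vx Q L.fd = fun k => T.pr B k * vx (Q.im p B) (L.im p B).fd k +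
      (1 - T.pr B k) * vx (Q.im p fun k ω => ¬ B k ω) (L.im p fun k ω => ¬ B k ω).fd k :=
    funext fun k => lf_vx Q L p B k
  rw [e1, ul_eq t]
  ring

/-- literal optimal forms of a point -/
theorem exists_lf (s : MSys S M E ι) [Finite ι] (R : Rsl S) {m : ℕ} (Q : S.VV m) (D : ℕ) (c : ℝ) :
    ∃ L : LF S (Mon m D), (gaq Q D).OptfK (KZ R) (cndR s R c) L.fd := by
  obtain ⟨Z, G, h1, h2, h3⟩ := Pool.Agent.Helper66.NJ.exists_zFD (gaq Q D) (cndR s R c) R
  exact ⟨⟨Z, fun k => Pool.Agent.Helper66.NJ.gG (Z k) (G k), fun k ω ω' a b c d =>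
    Pool.Agent.Helper66.NJ.gG_kn _ _ ω ω' a b c d⟩, h3⟩

theorem cndR_im (s : MSys S M E ι) (R : Rsl S) (c : ℝ) (p : Pj T S) (A : ∀ k, (T.F k).Ω → Prop)
    (hA : 0 < ul (T.pr A)) : cndR (s.im p A hA) R c = fun i => (cndR s R c i).im p A := by
  funext i
  rcases i with _ | i
  · rfl
  · rfl

/-- **THE DEGREE ON EVENTS**: if the volumes of all degrees of the point are the same number `v` on all events of all
extensions and the degree `D` attains it, it attains it on all events -/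
theorem deg_ev (s : MSys S M E ι) [Finite ι] (R : Rsl S) {m : ℕ} (Q : S.VV m) (D : ℕ) (c : ℝ) {v : ℝ}
    (h : volC (KZ R) (cndR s R c) Q D ≤ v) (p : Pj T S) (A : ∀ k, (T.F k).Ω → Prop) (hA : 0 < ul (T.pr A))
    (hlow : ∀ (B : ∀ k, (T.F k).Ω → Prop) (hB : 0 < ul (T.pr B)),
      v ≤ volC (S := Sp.im p B) (KZ (S := Sp.im p B) R) (cndR (s.im p B hB) R c) (Q.im p B) D) :
    volC (S := Sp.im p A) (KZ (S := Sp.im p A) R) (cndR (s.im p A hA) R c) (Q.im p A) D ≤ v := by
  obtain ⟨L, hL⟩ := exists_lf s R Q D c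
  rw [volC_eq hL] at h
  have had : ∀ (B : ∀ k, (T.F k).Ω → Prop) (hB : 0 < ul (T.pr B)),
      volC (S := Sp.im p B) (KZ (S := Sp.im p B) R) (cndR (s.im p B hB) R c) (Q.im p B) D ≤
        vol (Q.im p B) D (L.im p B).fd := by
    intro B hB
    have h1 := LF.im_adfK (p := p) (E := B) hL.1 hB
    rw [← gaq_im, ← cndR_im s R c p B hB] at h1
    exact volC_le_of h1
  refine (had A hA).trans ?_
  have h1 := lf_vol hL.1.1 p A
  have h2 : ul (T.pr A) ≤ 1 := ul_pr_le_one A
  rcases h2.eq_or_lt with h3 | h3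
  · rw [h3, one_mul, sub_self, zero_mul, add_zero] at h1
    rw [← h1]
    exact h
  · have h4 : 0 < ul (T.pr fun k ω => ¬ A k ω) := by
      rw [ul_not]
      linarith
    have h5 := (hlow _ h4).trans (had _ h4)
    have h6 := mul_le_mul_of_nonneg_left h5 (show 0 ≤ 1 - ul (T.pr A) by linarith)
    have h7 : ul (T.pr A) * vol (Q.im p A) D (L.im p A).fd ≤ ul (T.pr A) * v := by nlinarith
    exact le_of_mul_le_mul_left h7 hA

end

end Pool.Agent.Helper82.RZS
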