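import Pool.Agent.Helper82.RZS.Dom
import Pool.Agent.Helper82.RZS.Vev

/-! THE DEGREE of the K-hulls of all prefixes at a window `c > 0`: it depends on the dimension and on a bound `g'` of the
numbers of parameters and of `θ / c - 1` only, `θ` a bound of the total exponent on all events. -/

set_option autoImplicit false

namespace Pool.Agent.Helper82.RZS

open Finset Filter Topology Matrix Pool.Agent.Helper69.RK Pool.Agent.Helper31.EC Pool.Agent.Helper31.EC.Sp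
open Pool.Agent.Helper40.EL Pool.Agent.Helper89.LX Pool.Agent.Helper3.LF Pool.Agent.Helper84.MT
open Pool.Agent.Helper25.DX
open Pool.Agent.Helper89.RAK (KC Lit)
open Pool.Agent.Helper89.RAD (cnA dp cnA_dp)
open Pool.Agent.Helper36.AM (STu)
open Pool.Agent.Helper48.ROK (nrm nrm_lit nrm_fc optfK_res ev_res kns_im volC_res)
open Pool.Agent.Helper4.FRK (pS pS_lit cnA_pS)
open Pool.Agent.Helper18.PRM (vcrd scrd)
open Pool.Agent.Helper87.NSL (cndR KnS)
open Pool.Agent.Helper7.RD (volC volCO volC_eq volCO_le)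
open Pool.Agent.Helper29.MX
open Pool.Agent.Helper94.SEL

noncomputable section

variable {S T : Sp} {M D : ℕ} {E : ℕ → ℕ} {ι : Type}

theorem cndR_pS (s : MSys S M E ι) (R : Rsl S) (c : ℝ) {j : ℕ} (hj : j ≤ M) : cndR (pS hj s) R c = cndR s R c := by
  funext i
  rcases i with _ | i
  · rfl
  · rfl

theorem volKO_pS (s : MSys S M E ι) (R : Rsl S) (c : ℝ) {j : ℕ} (hj : j ≤ M) : volKO (pS hj s) R c = volP s R c hj := by
  rw [volKO_eq, cndR_pS]
  rfl

/-- the total exponent of a form of a prefix -/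
theorem ub_pfx [Finite ι] {s : MSys S M E ι} {R : Rsl S} (hP : Pt s R) {c θ : ℝ}
    (hL : ∀ (T : Sp) (q : Pj T S) (A : ∀ k, (T.F k).Ω → Prop) (hA : 0 < ul (T.pr A)), tot (s.im q A hA) R c ≤ θ)
    {j : ℕ} (hj : j ≤ M) {y : ∀ k, FD (S.F k) (Mon j D)} (hy : (gaq (pfx s.Q hj) D).AdfK (KZ R) (cndR s R c) y) :
    Ub (pfx s.Q hj) y θ := by
  have hP' : Pt (pS hj s) R := by
    have h1 : KnS R s.Q.v := hP
    show KnS R (pS hj s).Q.v
    filter_upwards [h1] with k hk ω ω' a b z r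
    have h2 := hk ω ω' a b z r
    show (fun i => s.Q.v k ω (Fin.castLE hj i)) = fun i => s.Q.v k ω' (Fin.castLE hj i)
    rw [h2]
  have hy' : KAd (pS hj s) R D c y := by
    unfold KAd
    rw [cndR_pS]
    exact hy
  refine ub_tot hP' hy' fun T q A hA => ?_
  have h1 : volKO ((pS hj s).im q A hA) R c = volP (s.im q A hA) R c hj := volKO_pS (s.im q A hA) R c hj
  rw [h1]
  have h2 := Pool.Agent.Helper84.SEL.num_le_tot (s.im q A hA) R hj c
  have h3 := hL T q A hA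
  unfold num at h2
  linarith

/-- THE DEGREE of the prefixes at the window `c` -/
theorem deg_pfx (hst : ∀ m, m < M → STu m) {g' : ℕ} (hg : 1 ≤ g') : ∃ D₁ : ℕ, 1 ≤ D₁ ∧ ∀ D₀, D₁ ≤ D₀ →
    ∀ (ι : Type) [Finite ι] (E : ℕ → ℕ) (S : Sp) (s : MSys S M E ι) (R : Rsl S), Pt s R → (∀ i, (s.lf i).e ≤ g') →
      ∀ c e θ : ℝ, 0 < c → 0 < e → TopG s R c e → θ < c * (1 + g') →
        (∀ (T : Sp) (q : Pj T S) (A : ∀ k, (T.F k).Ω → Prop) (hA : 0 < ul (T.pr A)), tot (s.im q A hA) R c ≤ θ) →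
          ∀ (j : ℕ) (hj : j ≤ M), volC (KZ R) (cndR s R c) (pfx s.Q hj) D₀ ≤ volP s R c hj := by
  have h1 : ∀ N : Fin M, ∃ D₁ : ℕ, 1 ≤ D₁ ∧ ∀ D₀, D₁ ≤ D₀ →
    ∀ (ι : Type) [Finite ι] (E : ℕ → ℕ) (S : Sp) (s : MSys S (N.val + 1) E ι) (R : ∀ k, Setoid (S.F k).Ω)
      (_ : Lit R s.Q) (_ : ∀ i, (s.lf i).e ≤ g') (c θ θ' : ℝ), 0 < c → c < 1 → θ < 1 →
      θ' < c * ((N.val : ℝ) + 1 + g') →
      ∀ (D : ℕ) (_ : ∀ x : ∀ k, FD (S.F k) (Mon (N.val + 1) D), (gaq s.Q D).OptfK (KC R) (cnA s (dp R) c) x →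
        Ue s.Q x θ ∧ Ub s.Q x θ'), volC (KC R) (cnA s (dp R) c) s.Q D₀ ≤ volC (KC R) (cnA s (dp R) c) s.Q D :=
    fun N => deg_winb (N := N.val) (fun m hm => hst m (by have := N.isLt; omega)) hg
  choose D₁ hD1 hdg using h1
  refine ⟨(∑ N, D₁ N) + 1, Nat.le_add_left _ _, ?_⟩
  intro D₀ hD0 ι _ E S s R hP he c e θ hc he0 hT hθ hL j hj
  rcases Nat.eq_zero_or_pos j with h0 | h0
  · subst h0
    refine (Pool.Agent.Helper7.RD.volC_le_M).trans ?_
    have := Pool.Agent.Helper7.RD.volCO_nonneg (C := KZ R) (A := cndR s R c) (Q := pfx s.Q hj)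
    unfold volP
    rw [Nat.cast_zero]
    exact this
  obtain ⟨N, rfl⟩ : ∃ N, j = N + 1 := ⟨j - 1, by omega⟩
  have hN : N < M := hj
  obtain ⟨hc1, hce⟩ := topG_le (by omega) hP hc he0 hT
  have hR : KnS R s.Q.v := hP
  have hg0 : (1 : ℝ) ≤ g' := by exact_mod_cast hg
  unfold volP volCO
  refine le_ciInf fun D => ?_
  have h2 := Finset.single_le_sum (f := D₁) (fun i _ => Nat.zero_le _) (Finset.mem_univ (⟨N, hN⟩ : Fin M))
  have h3 := hdg ⟨N, hN⟩ D₀ (by omega) ι E S (pS hj s) (nrm R s.Q) (pS_lit (nrm_lit R s.Q) hj) he c (1 - e) θ hc hc1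
    (by linarith) (by
      have h4 : (0 : ℝ) ≤ c * N := mul_nonneg hc.le (Nat.cast_nonneg _)
      have h5 : c * (1 + (g' : ℝ)) ≤ c * ((N : ℝ) + 1 + g') := by nlinarith
      exact hθ.trans_le h5) D (fun x hx => by
      have hx1 : (gaq (pfx s.Q hj) D).OptfK (KC (nrm R s.Q)) (cnA s (dp (nrm R s.Q)) c) x := by
        rw [← cnA_pS hj]
        exact hx
      have hx2 := (optfK_res (nrm_fc hR)).1 hx1
      rw [cnA_dp] at hx2
      exact ⟨ue_pfx hT hj hx2, ub_pfx hP hL hj hx2.1⟩)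
  have h4 : ∀ DD, volC (KC (nrm R s.Q)) (cnA (pS hj s) (dp (nrm R s.Q)) c) (pS hj s).Q DD =
      volC (KZ R) (cndR s R c) (pfx s.Q hj) DD := fun DD => by
    rw [cnA_pS]
    have h5 := volC_res (nrm_fc hR) (s := s) (c := c) (pfx s.Q hj) DD
    rw [cnA_dp s R c] at h5
    exact h5
  rw [h4, h4] at h3
  exact h3

/-- the degree on events -/
theorem deg_pfx_ev [Finite ι] {s : MSys S M E ι} {R : Rsl S} {c : ℝ} {D : ℕ}
    (hrig : AllE (fun _ t R' => ∀ (j : ℕ) (hj : j ≤ M), volP t R' c hj = volP s R c hj) S s R)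
    (hd : ∀ (j : ℕ) (hj : j ≤ M), volC (KZ R) (cndR s R c) (pfx s.Q hj) D ≤ volP s R c hj) :
    AllE (fun _ t R' => ∀ (j : ℕ) (hj : j ≤ M), volC (KZ R') (cndR t R' c) (pfx t.Q hj) D ≤ volP t R' c hj) S s R := by
  intro T p A hA j hj
  have h1 := deg_ev s R (pfx s.Q hj) D c (hd j hj) p A hA fun B hB => by
    have h2 := hrig T p B hB j hj
    rw [← h2]
    exact volCO_le (S := Sp.im p B) D
  have h2 := hrig T p A hA j hj
  rw [← h2] at h1
  exact h1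

end

end Pool.Agent.Helper82.RZS
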