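import Pool.Agent.Helper25.DX.Top
import Pool.Agent.Helper4.FRK.Mk
import Pool.Agent.Helper84.SEL.Numx
import Pool.Agent.Helper70.CPW.Evf

/-! THE TOP EXPONENT of the prefixes and of dominated forms; `TopG s R c e` implies `c + e ≤ 1`. -/

set_option autoImplicit false

namespace Pool.Agent.Helper82.RZS

open Finset Filter Topology Matrix Pool.Agent.Helper69.RK Pool.Agent.Helper31.EC Pool.Agent.Helper31.EC.Sp
open Pool.Agent.Helper40.EL Pool.Agent.Helper89.LX Pool.Agent.Helper3.LF Pool.Agent.Helper84.MT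
open Pool.Agent.Helper95.LF
open Pool.Agent.Helper14.MC
open Pool.Agent.Helper89.RAT (xz Jz Jz_dom)
open Pool.Agent.Helper4.VZ (sgl sgl_Jq ee je je_one_le je_pow)
open Pool.Agent.Helper89.RAK (DomJ KC Lit)
open Pool.Agent.Helper25.DX
open Pool.Agent.Helper4.FRK (pq pre grb_prt pre_adf)
open Pool.Agent.Helper84.KR (prt optK_prt)
open Pool.Agent.Helper18.PRM (vcrd scrd)
open Pool.Agent.Helper87.NSL (cndR KnS)
open Pool.Agent.Helper7.RD (volC volCO optK_dom)
open Pool.Agent.Helper29.MX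
open Pool.Agent.Helper94.SEL

noncomputable section

variable {S : Sp} {M D : ℕ} {κ κ' : Type} {E : ℕ → ℕ} {ι : Type} {Q : S.VV M} {x y : ∀ k, FD (S.F k) (Mon M D)}

theorem ee_xz (Q : S.VV M) (x : ∀ k, FD (S.F k) (Mon M D)) (z : Fin M) (k : ℕ) (ω : (x k).l.T.Ω) :
    ee Q x (fun _ _ => sgl z) k ω = xz Q z k ((x k).l.p.π ω) ((x k).g ω) := by
  unfold ee je xz Jz
  rw [sgl_Jq]

/-- the top exponent of a form which is dominated -/
theorem ue_dom {A : κ → Part S} {B : κ' → Part S} (hx : (gaq Q D).Adf A x) (hy : (gaq Q D).Adf B y) (h : DomJ x y)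
    {θ : ℝ} (hu : Ue Q x θ) : Ue Q y θ := by
  intro ε hε
  have hε2 : 0 < ε / 2 := by linarith
  have h1 : Sp.Typ (S := (lb x).sp) (fun k (ω : (x k).l.T.Ω) => ∀ z, ee Q x (fun _ _ => sgl z) k ω ≤ θ + ε / 2) :=
    hu _ hε2
  have h1' : Tendsto (fun k => (x k).l.T.pb (fun ω => ¬ ∀ z, xz Q z k ((x k).l.p.π ω) ((x k).g ω) ≤ θ + ε / 2)) UF
      (𝓝 0) := by
    refine Tendsto.congr (fun k => ?_) h1
    show (x k).l.T.pb _ = (x k).l.T.pb _
    congr 1
    funext ω
    exact propext (not_congr (forall_congr' fun z => by rw [ee_xz]))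
  have h3 := (h _ hε2).add h1'
  rw [add_zero] at h3
  show Tendsto (fun k => (y k).l.T.pb (fun ω => ¬ ∀ z, ee Q y (fun _ _ => sgl z) k ω ≤ θ + ε)) UF (𝓝 0)
  refine squeeze_zero' (Eventually.of_forall fun k => (y k).l.T.pb_nonneg _) ?_ h3
  filter_upwards [hx 1 one_pos, hy 1 one_pos] with k b3 b4
  have hn := (S.F k).pos
  have h4 := pb_push ((x k).l.am (y k).l).p2 (fun ω => ¬ ∀ z, ee Q y (fun _ _ => sgl z) k ω ≤ θ + ε)
  have h5 := pb_push ((x k).l.am (y k).l).p1 (fun ω => ¬ ∀ z, xz Q z k ((x k).l.p.π ω) ((x k).g ω) ≤ θ + ε / 2)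
  have e4 : (y k).l.T.pb (fun ω => ¬ ∀ z, ee Q y (fun _ _ => sgl z) k ω ≤ θ + ε) =
      ((x k).l.am (y k).l).sp.pb (fun w => ¬ ∀ z, ee Q y (fun _ _ => sgl z) k (((x k).l.am (y k).l).p2.π w) ≤
        θ + ε) := h4.symm
  have e5 : (x k).l.T.pb (fun ω => ¬ ∀ z, xz Q z k ((x k).l.p.π ω) ((x k).g ω) ≤ θ + ε / 2) =
      ((x k).l.am (y k).l).sp.pb (fun w => ¬ ∀ z, xz Q z k ((x k).l.p.π (((x k).l.am (y k).l).p1.π w))
        ((x k).g (((x k).l.am (y k).l).p1.π w)) ≤ θ + ε / 2) := h5.symm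
  refine e4.trans_le ((FSp.pb_mono _ (E' := fun w : ((x k).l.am (y k).l).sp.Ω =>
    (¬ ∀ v, qf (((x k).jj (y k)).g' w) v ≤ 2 ^ (ε / 2 * (S.F k).n) * qf (((x k).jj (y k)).g w) v) ∨
    ¬ ∀ z, xz Q z k ((x k).l.p.π (((x k).l.am (y k).l).p1.π w)) ((x k).g (((x k).l.am (y k).l).p1.π w)) ≤
      θ + ε / 2) ?_).trans ((pb_or _ _ _).trans (add_le_add le_rfl e5.symm.le)))
  intro w hw h6
  by_contra hc
  rw [not_or, not_not, not_not] at hc
  apply h6
  intro z
  rw [ee_xz]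
  have s1 := ((x k).l.am (y k).l).p1.supp w hw
  have s2 := ((x k).l.am (y k).l).p2.supp w hw
  have s3 : (x k).l.p.π (((x k).l.am (y k).l).p1.π w) = (y k).l.p.π (((x k).l.am (y k).l).p2.π w) :=
    (x k).jj_supp (y k) w hw
  have c1 := (b3.2.1 _ s1).1
  have c2 := (b4.2.1 _ s2).1
  have h7 : ∀ v, qf ((y k).g (((x k).l.am (y k).l).p2.π w)) v ≤ 2 ^ (ε / 2 * (S.F k).n) *
      qf ((x k).g (((x k).l.am (y k).l).p1.π w)) v := hc.1
  rw [← s3]
  set p := (x k).l.p.π (((x k).l.am (y k).l).p1.π w) with hp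
  set g1 := (x k).g (((x k).l.am (y k).l).p1.π w) with hg1
  set g2 := (y k).g (((x k).l.am (y k).l).p2.π w) with hg2
  have h8 : Jz Q z k p g2 ≤ 2 ^ (ε / 2 * (S.F k).n) * Jz Q z k p g1 :=
    Jz_dom Q z k p (Real.one_le_rpow (by norm_num) (by positivity)) h7
  have h2 := Pool.Agent.Helper89.RAT.one_le_Jz Q z k p (A := g1) (fun v => c1.psd.2 v)
  have h3 := Pool.Agent.Helper89.RAT.one_le_Jz Q z k p (A := g2) (fun v => c2.psd.2 v)
  have h9 := Real.logb_le_logb_of_le (b := 2) (by norm_num) (by linarith) h8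
  rw [Real.logb_mul (by positivity) (by linarith), Real.logb_rpow (by norm_num) (by norm_num)] at h9
  have h10 : xz Q z k p g1 ≤ θ + ε / 2 := hc.2 z
  have h11 : xz Q z k p g2 ≤ xz Q z k p g1 + ε / 4 := by
    unfold xz
    rw [div_add' _ _ _ (by positivity)]
    apply div_le_div_of_nonneg_right _ (by positivity)
    linarith
  linarith

/-- the top exponent of the optimal forms of the prefixes -/
theorem ue_pfx [Finite ι] {s : MSys S M E ι} {R : Rsl S} {c e : ℝ} (hT : TopG s R c e) {j : ℕ} (hj : j ≤ M)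
    {y : ∀ k, FD (S.F k) (Mon j D)} (hy : (gaq (pfx s.Q hj) D).OptfK (KZ R) (cndR s R c) y) :
    Ue (pfx s.Q hj) y (1 - e) := by
  obtain ⟨x, hx⟩ := (gaq s.Q D).exists_optfK (KZ R) (cndR s R c)
  have h1 : (gaq (pq hj s.Q) D).OptfK (KZ R) (cndR s R c) (pre hj x) :=
    optK_prt (σ := Fin.castLE hj) (hσ := Fin.castLE_injective hj) (Q := s.Q) (P := vcrd (Fin.castLE hj) s.Q)
      (fun k ω a => Pool.Agent.Helper18.PRM.vcrd_v (Fin.castLE hj) s.Q k ω a) hx
  have h2 : GrB (pq hj s.Q) (pre hj x) e := grb_prt hx.1.1 (hT D x hx)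
  have h3 := grb_ue h1.1.1 h2
  exact ue_dom h1.1.1 hy.1.1 (optK_dom h1 hy.1) h3

/-- the volume in dimension one, from the top exponent -/
theorem vol_one {P : S.VV 1} {A : κ → Part S} {y : ∀ k, FD (S.F k) (Mon 1 D)} (hy : (gaq P D).Adf A y) {θ : ℝ}
    (h0 : 0 ≤ θ) (hu : Ue P y θ) : 1 - θ ≤ vol P D y := by
  rw [vol_eq]
  have hU : UB (fun k => ∑ ω, (y k).l.T.μ ω * gx P k ((y k).l.p.π ω) ((y k).g ω)) := vx_UB hy
  suffices h : ul (vx P y) ≤ θ by
    push_cast
    linarith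
  apply le_of_forall_pos_le_add
  intro ε hε
  have h1 : Tendsto (fun k => (y k).l.T.pb (fun ω => ¬ ∀ z, ee P y (fun _ _ => sgl z) k ω ≤ θ + ε)) UF (𝓝 0) :=
    hu _ hε
  obtain ⟨C, hC⟩ := Pool.Agent.Helper70.CPW.gx_bd hy
  have hc : ∀ k, ∑ ω, (y k).l.T.μ ω * (θ + ε) = θ + ε := fun k => by
    have e2 : ∑ ω, (y k).l.T.μ ω = 1 := (y k).l.T.ms
    rw [← Finset.sum_mul, e2, one_mul]
  have h2 := Pool.Agent.Helper84.MT.ul_avg_le (fun k => (y k).l.T) (fun _ _ => θ + ε)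
    (fun k ω => gx P k ((y k).l.p.π ω) ((y k).g ω)) (fun k ω => ∀ z, ee P y (fun _ _ => sgl z) k ω ≤ θ + ε)
    (fun _ => 0) tendsto_const_nhds C h1 (Eventually.of_forall fun k ω _ h => by
      have h3 := h 0
      rw [ee_xz] at h3
      rw [add_zero]
      refine le_trans (le_of_eq ?_) h3
      unfold gx xz Jz GQ
      rw [Matrix.det_fin_one, Matrix.add_apply, Matrix.one_apply_eq])
    (hC.mono fun k h w hw => (h w hw).2) (Eventually.of_forall fun _ _ _ => by linarith) hU (by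
      have e1 : (fun k => ∑ ω, (y k).l.T.μ ω * (θ + ε)) = fun _ => θ + ε := funext hc
      rw [e1]
      exact UB_of_nonneg_le (C := θ + ε) (Eventually.of_forall fun _ => by linarith)
        (Eventually.of_forall fun _ => le_rfl))
  have e1 : (fun k => ∑ ω, (y k).l.T.μ ω * (θ + ε)) = fun _ => θ + ε := funext hc
  rw [e1, ul_const] at h2
  exact h2

/-- the unit of `TopG` is at most `1 - c` -/
theorem topG_le [Finite ι] {s : MSys S M E ι} {R : Rsl S} (hM : 1 ≤ M) (hP : Pt s R) {c e : ℝ} (h0 : 0 < c)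
    (he : 0 < e) (hT : TopG s R c e) : c < 1 ∧ c + e ≤ 1 := by
  have h1 : min c 1 ≤ num s R hM c := by
    have a1 := Pool.Agent.Helper84.KR.An_step (s := s) (R := R) hP (j := 0) hM (c := min c 1)
      (le_min h0.le zero_le_one) (min_le_right _ _)
    rw [Pool.Agent.Helper84.KR.An_zero, zero_add, zero_add, ← Pool.Agent.Helper84.SEL.num_eq s R hM] at a1
    exact a1.trans (Pool.Agent.Helper84.SEL.num_mono s R hM (min_le_left _ _))
  have h2 : 1 - max (1 - e) 0 ≤ volP s R c hM := by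
    unfold volP
    refine le_ciInf fun D => ?_
    obtain ⟨y, hy⟩ := (gaq (pfx s.Q hM) D).exists_optfK (KZ R) (cndR s R c)
    rw [Pool.Agent.Helper7.RD.volC_eq hy]
    exact vol_one hy.1.1 (le_max_right _ _) ((ue_pfx hT hM hy).mono (le_max_left _ _))
  have h3 : num s R hM c = 1 - volP s R c hM := by
    unfold num
    norm_num
  have h4 : min c 1 ≤ max (1 - e) 0 := by linarith
  have h5 : 0 < min c 1 := lt_min h0 one_pos
  have h6 : 0 < 1 - e := by
    rcases le_total (1 - e) 0 with h | h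
    · rw [max_eq_right h] at h4
      linarith
    · rcases h.eq_or_lt with h | h
      · rw [← h, max_self] at h4
        linarith
      · exact h
  rw [max_eq_left h6.le] at h4
  rcases le_total c 1 with h | h
  · rw [min_eq_left h] at h4
    exact ⟨by linarith, by linarith⟩
  · rw [min_eq_right h] at h4
    linarith

end

end Pool.Agent.Helper82.RZS
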