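import Pool.Agent.Helper4.FRK.Mk

/-! FLAG ROWS OF K-LABELS in a degree which does not depend on the system: the structure theorem in the smaller dimensions
is replaced by the bound of the entropies of the prefixes over the K-labels of the window, on all events. -/

set_option autoImplicit false

namespace Pool.Agent.Helper82.RZS

open Finset Filter Topology Matrix Pool.Agent.Helper69.RK Pool.Agent.Helper31.EC Pool.Agent.Helper31.EC.Sp
open Pool.Agent.Helper40.EL Pool.Agent.Helper89.LX Pool.Agent.Helper3.LF Pool.Agent.Helper84.MT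
open Pool.Agent.Helper7.GZ Pool.Agent.Helper89.RAT
open Pool.Agent.Helper84.KR (prt prt_adf optK_prt)
open Pool.Agent.Helper89.RAK (Lit KC slf_K volz_P0 zf1 zf1_adf vol_prj optK_dom)
open Pool.Agent.Helper89.RAD (cnA dp DMD DMD_dp cnA_dp vzD)
open Pool.Agent.Helper18.PRM (vcrd scrd)
open Pool.Agent.Helper3.KL (vol_optK_le)
open Pool.Agent.Helper48.ROK (typ_low nrm nrm_lit nrm_fc optfK_res ev_res)
open Pool.Agent.Helper4.FRK
open Pool.Agent.Helper85.FRG (FF exists_ff Car scw_cndR)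
open Pool.Agent.Helper87.NSL (KnS cndR)
open Pool.Agent.Helper52.GF (scw)
open Pool.Agent.Helper7.RD (RW volC volCO)
open Pool.Agent.Helper29.MX (Rsl KLb KAd KOp KZ pfx volP Pt AllE Flg OptLam rover)

noncomputable section

variable {S : Sp} {M D : ℕ} {E : ℕ → ℕ} {ι : Type} {s : MSys S M E ι} {R : ∀ k, Setoid (S.F k).Ω}

/-- THE ENTROPIES of the prefixes over the K-labels of the window `c` are at least `v j`, on all events -/
structure Ent (s : MSys S M E ι) (R : ∀ k, Setoid (S.F k).Ω) (c : ℝ) (v : ℕ → ℝ) : Prop where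
  self : ∀ {j : ℕ} (hj : j < M) (l : Lab S), DMD s (dp R) R c l → v j ≤ H (up1 l ((pq hj.le s.Q).dg 1))
  im : ∀ (T : Sp) (p : Pj T S) (B : ∀ k, (T.F k).Ω → Prop) (hB : 0 < ul (T.pr B)) {j : ℕ} (hj : j < M)
    (l : Lab (Sp.im p B)), DMD (s.im p B hB) (dp (S := Sp.im p B) R) R c l →
      v j ≤ H (up1 l ((pq hj.le (s.im p B hB).Q).dg 1))

theorem dmd_pS {j : ℕ} (hj : j ≤ M) {c : ℝ} {l : Lab S} : DMD (pS hj s) (dp R) R c l ↔ DMD s (dp R) R c l := by
  rw [DMD_dp, DMD_dp]
  rfl

section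
variable [Finite ι] {g : ℕ} {s : MSys S M (lin g) ι} (hlit : Lit R s.Q) (hD : 1 ≤ D) {c : ℝ} {v : ℕ → ℝ}
  (hv : Vcn s R D c v) (hH : Ent s R c v) {x : ∀ k, FD (S.F k) (Mon M D)} (hx : KO s R D c x)

include hlit hD hv hH hx

/-- the mean exponent -/
theorem zx_pre (j : Fin M) : zx (pq (Nat.succ_le_of_lt j.isLt) s.Q) (Fin.last j.val)
    (pre (Nat.succ_le_of_lt j.isLt) x) = thv v j.val := by
  have hx1 := pre_KO hx (Nat.succ_le_of_lt j.isLt)
  have hx0 := pre_KO hx j.isLt.le
  have e3 := hv.self _ _ hx1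
  have e4 := hv.self _ _ hx0
  have hP : ∀ k ω (a : Fin j.val), (pq j.isLt.le s.Q).v k ω a =
      (pS (Nat.succ_le_of_lt j.isLt) s).Q.v k ω ((Fin.last j.val).succAbove a) := fun k ω a => by
    rw [Fin.succAbove_last]
    rfl
  apply le_antisymm
  · have h2 : (lb (pre j.isLt.le x)).DMf (cnA (pS (Nat.succ_le_of_lt j.isLt) s) (dp R) c) := by
      have h4 : DMD (pS j.isLt.le s) (dp R) R c (lb (pre j.isLt.le x)) := ⟨Gau.Adf.dm _ hx0.1.1, hx0.1.2⟩
      have h5 : DMD (pS (Nat.succ_le_of_lt j.isLt) s) (dp R) R c (lb (pre j.isLt.le x)) := by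
        rw [DMD_dp] at h4 ⊢
        exact h4
      exact h5.1
    have h3 := zf1_adf (Q := (pS (Nat.succ_le_of_lt j.isLt) s).Q) (P := pq j.isLt.le s.Q) (j := Fin.last j.val)
      (fun k ω => funext fun a => hP k ω a) hx0.1.1 h2
    have h5 := optK_dom hx1 ⟨h3, hx0.1.2⟩
    have h6 := vol_prj (Q := (pS (Nat.succ_le_of_lt j.isLt) s).Q) (P := pq j.isLt.le s.Q) (j := Fin.last j.val)
      (fun k ω => funext fun a => hP k ω a) hx1.1.1 hx0.1.1 h5
    have e3' : vol (pS (Nat.succ_le_of_lt j.isLt) s).Q D (pre (Nat.succ_le_of_lt j.isLt) x) = v (j.val + 1) := e3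
    have h7 : zx (pS (Nat.succ_le_of_lt j.isLt) s).Q (Fin.last j.val) (pre (Nat.succ_le_of_lt j.isLt) x) ≤
        thv v j.val := by
      unfold thv
      linarith
    exact h7
  · have h1 := vzD hD (s := pS (Nat.succ_le_of_lt j.isLt) s) (Pool.Agent.Helper4.FRK.pS_lit hlit _) hx1
      (Fin.last j.val) (pq j.isLt.le s.Q) hP
    have h2 := hH.self j.isLt (lb (pre (Nat.succ_le_of_lt j.isLt) x))
      ((dmd_pS (s := s) (Nat.succ_le_of_lt j.isLt)).1 ⟨Gau.Adf.dm _ hx1.1.1, hx1.1.2⟩)
    have e3' : vol (pS (Nat.succ_le_of_lt j.isLt) s).Q D (pre (Nat.succ_le_of_lt j.isLt) x) = v (j.val + 1) := e3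
    have h7 : thv v j.val ≤
        zx (pS (Nat.succ_le_of_lt j.isLt) s).Q (Fin.last j.val) (pre (Nat.succ_le_of_lt j.isLt) x) := by
      unfold thv
      linarith
    exact h7

/-- **THE EXPONENTS OF THE ROWS ARE TYPICALLY CONSTANT** -/
theorem typ_lz (j : Fin M) (e : ℝ) (he : 0 < e) :
    Typ (S := (lb x).sp) (fun k (ω : (x k).l.T.Ω) => |lz s.Q x j k ω - thv v j.val| ≤ e) := by
  have hx1 := pre_KO hx (Nat.succ_le_of_lt j.isLt)
  have hlow : ∀ e : ℝ, 0 < e → Typ (S := (lb x).sp) (fun k (ω : (x k).l.T.Ω) => thv v j.val - e ≤ lz s.Q x j k ω) :=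
    fun e he => typ_low (A := cnA (pS (Nat.succ_le_of_lt j.isLt) s) (dp R) c)
      (Pool.Agent.Helper4.FRK.pS_lit hlit (Nat.succ_le_of_lt j.isLt))
      hD hx1 (Fin.last j.val) (pq j.isLt.le s.Q) Fin.castSucc (fun a h => by
        have h2 := congrArg Fin.val h
        rw [Fin.val_last, Fin.val_castSucc] at h2
        exact absurd h2 a.isLt.ne) (fun k ω a => rfl) (a := v j.val) (θ := thv v j.val)
      (fun T p B hB l hl hk => by
        refine hH.im T p B hB j.isLt l ⟨?_, hk⟩
        intro i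
        have h2 := hl i
        rcases i with _ | i
        · exact h2
        · exact h2)
      (by
        have h3 := hv.self _ _ hx1
        have h4 : vol (pS (Nat.succ_le_of_lt j.isLt) s).Q D (pre (Nat.succ_le_of_lt j.isLt) x) = v (j.val + 1) := h3
        rw [h4]
        unfold thv
        linarith)
      (fun T p B hB y hy => by
        obtain ⟨z, hz⟩ := (gaq (pS (Nat.succ_le_of_lt j.isLt) (s.im p B hB)).Q D).exists_optfK (KC (S := Sp.im p B) R)
          (cnA (pS (Nat.succ_le_of_lt j.isLt) (s.im p B hB)) (dp (S := Sp.im p B) R) c)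
        have e1 : (fun i => (cnA (pS (Nat.succ_le_of_lt j.isLt) s) (dp R) c i).im p B) =
            cnA (pS (Nat.succ_le_of_lt j.isLt) (s.im p B hB)) (dp (S := Sp.im p B) R) c := by
          funext i
          rcases i with _ | i
          · rfl
          · rfl
        have h2 : (gaq (pS (Nat.succ_le_of_lt j.isLt) (s.im p B hB)).Q D).AdfK (KC (S := Sp.im p B) R)
            (cnA (pS (Nat.succ_le_of_lt j.isLt) (s.im p B hB)) (dp (S := Sp.im p B) R) c) y := by
          rw [← e1]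
          exact hy
        have h3 := vol_optK_le hz h2
        have h4 := hv.im T p B hB (Nat.succ_le_of_lt j.isLt) z hz
        have h5 : vol (pS (Nat.succ_le_of_lt j.isLt) (s.im p B hB)).Q D z = v (j.val + 1) := h4
        rw [h5] at h3
        refine le_trans (le_of_eq ?_) h3
        unfold thv
        ring) e he
  have hm := zx_pre hlit hD hv hH hx j
  obtain ⟨C, hC, hb⟩ := xz_bd (Fin.last j.val) hx1.1.1
  have hb' : ∀ᶠ k in UF, ∀ ω : ((lb x).sp.F k).Ω, ((lb x).sp.F k).μ ω ≠ 0 → |lz s.Q x j k ω| ≤ C + |thv v j.val| := by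
    filter_upwards [hb] with k hk
    intro (ω : (x k).l.T.Ω) hω
    obtain ⟨a, b⟩ := hk ω hω
    have h2 : |lz s.Q x j k ω| ≤ C := by
      rw [abs_of_nonneg (show 0 ≤ lz s.Q x j k ω from a)]
      exact b
    linarith [abs_nonneg (thv v j.val)]
  have h5 := Pool.Agent.Helper4.FFR.typ_abs (lb x).sp (fun _ _ => thv v j.val)
    (fun k (ω : (x k).l.T.Ω) => lz s.Q x j k ω) (C + |thv v j.val|)
    (Eventually.of_forall fun k ω _ => by linarith) hb' (fun e he => Typ.mono (S := (lb x).sp) (hlow e he)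
      (Eventually.of_forall fun k ω _ h => by
        have h6 : thv v j.val - e ≤ lz s.Q x j k ω := h
        show thv v j.val ≤ lz s.Q x j k ω + e
        linarith)) (by
      have e1 : (fun k => ∑ ω, ((lb x).sp.F k).μ ω * thv v j.val) = fun _ => thv v j.val := by
        funext k
        rw [← Finset.sum_mul]
        have e2 : ∑ ω, ((lb x).sp.F k).μ ω = 1 := ((lb x).sp.F k).ms
        rw [e2, one_mul]
      rw [e1, ul_const]
      exact hm.le) e he
  refine Typ.mono (S := (lb x).sp) h5 (Eventually.of_forall fun k ω _ h => ?_)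
  rw [abs_sub_comm]
  exact h

end

end

end Pool.Agent.Helper82.RZS
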